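import Pool.Agent.PFD.StmtsD5b
import Pool.Agent.PFD.Chain2

/-!
# PFD, row KXE: the number of the ordinary characters of a block
-/

open scoped BigOperators

noncomputable section

namespace Pool.Agent.PFD.H11

open Pool.Agent.Helper51_AWC Pool.Agent.Helper79_WRA Pool.Agent.PP Pool.Agent.PP.KF
open Pool.Agent.PP.K9 Pool.Agent.PP.K9.H97 Pool.Agent.PP.H75 Pool.Agent.PP.T3 Pool.Agent.PP.T2

attribute [local instance] Ideal.Quotient.field

/-- an action which induces all the automorphisms of `Ei V γ` is faithful if the orders agree -/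
theorem inj_of {G F : Type} [Group G] {V : Subgroup G} {γ : G → F} {V' E : Type} [CommGroup V']
    [Group E] [Finite E] {ι : V' →* G} {φ : E →* MulAut V'} (hr : ι.range = V)
    (f : E ≃* Ei V γ)
    (h1 : ∀ t ∈ Tg V γ, ∃ x : E, ∀ w, ι (φ x w) = t * ι w * t⁻¹)
    (h2 : ∀ x : E, ∃ t ∈ Tg V γ, ∀ w, ι (φ x w) = t * ι w * t⁻¹) : Function.Injective φ := by
  choose t ht hw using h2
  have hN : ∀ x, t x ∈ Subgroup.normalizer (V : Set G) := fun x => (ht x).1
  obtain ⟨a, ha⟩ : ∃ a : E → Ei V γ, ∀ x, (a x : MulAut V) =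
      V.normalizerMonoidHom ⟨t x, hN x⟩ :=
    ⟨fun x => ⟨V.normalizerMonoidHom ⟨t x, hN x⟩, ⟨t x, hN x⟩, ht x, rfl⟩, fun x => rfl⟩
  have hval : ∀ (s : G) (hs : s ∈ Subgroup.normalizer (V : Set G)) (v : V),
      ((V.normalizerMonoidHom ⟨s, hs⟩ v : V) : G) = s * v * s⁻¹ := fun s hs v => rfl
  have hsur : Function.Surjective a := by
    rintro ⟨_, ⟨s, hs⟩, hs2, rfl⟩
    obtain ⟨x, hx⟩ := h1 s hs2
    refine ⟨x, ?_⟩
    apply Subtype.ext
    rw [ha]
    apply MulEquiv.ext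
    intro v
    apply Subtype.ext
    rw [hval, hval]
    obtain ⟨w, hwv⟩ : (v : G) ∈ ι.range := by rw [hr]; exact v.2
    rw [← hwv, ← hw, hx]
  have hinj : Function.Injective a := by
    have h3 : Function.Surjective (f.symm ∘ a) := f.symm.surjective.comp hsur
    have h4 : Function.Injective (f.symm ∘ a) := Finite.injective_iff_surjective.2 h3
    exact h4.of_comp
  intro x y hxy
  apply hinj
  apply Subtype.ext
  rw [ha, ha]
  apply MulEquiv.ext
  intro v
  apply Subtype.ext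
  rw [hval, hval]
  obtain ⟨w, hwv⟩ : (v : G) ∈ ι.range := by rw [hr]; exact v.2
  rw [← hwv, ← hw, ← hw, hxy]

theorem kxe (keg : KegStmt) (trn : TrnStmt) : KxeStmt := by
  intro ℓ _ M _ hM G _ _ e V γ hL U W hS
  obtain ⟨V', E, i1, i2, i3, i4, ι, φ, h1, h2, h3, h4, h5, h6⟩ := keg ℓ M hM G e V γ hL U W hS
  rw [h6]
  exact trn (FF M) G V γ V' E ι φ h1 h2 h3 h4 h5

end Pool.Agent.PFD.H11
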