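import Pool.Agent.PFD.StmtsD5b
import Pool.Agent.Helper13_WAT.WAT
import Pool.Agent.Helper66_AT3.Fnt

/-!
# PFD, row LEQ: the number of the modular characters
-/

open scoped BigOperators

noncomputable section

namespace Pool.Agent.PFD.H11

open Pool.Agent.Helper51_AWC Pool.Agent.Helper79_WRA Pool.Agent.PP Pool.Agent.PP.KF
open Pool.Agent.PP.K9 Pool.Agent.PP.K9.H97 Pool.Agent.PP.H75 Pool.Agent.PP.T3 Pool.Agent.PP.T2
open Pool.Agent.PP.TB (Zd Star iz cz)

attribute [local instance] Ideal.Quotient.field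

/-- isomorphic groups have the same number of conjugacy classes -/
theorem card_cc {A B : Type} [Group A] [Group B] (f : A ≃* B) :
    Nat.card (ConjClasses A) = Nat.card (ConjClasses B) := by
  refine Nat.card_congr ⟨ConjClasses.map (f : A →* B), ConjClasses.map (f.symm : B →* A),
    ?_, ?_⟩
  · intro x
    induction x using Quotient.inductionOn with
    | _ x =>
      change ConjClasses.mk (f.symm (f x)) = ConjClasses.mk x
      rw [f.symm_apply_apply]
  · intro x
    induction x using Quotient.inductionOn with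
    | _ x =>
      change ConjClasses.mk (f (f.symm x)) = ConjClasses.mk x
      rw [f.apply_symm_apply]

theorem fxs_top {V E : Type} [Group V] [Group E] (φ : E →* MulAut V) (v : V)
    (h : ∀ e, φ e v = v) : Fxs φ v = ⊤ := by
  rw [eq_top_iff]
  intro e _
  exact h e

/-- comparison of two sums -/
theorem cmp {V : Type} [Fintype V] (Z : V → Prop) (F L K : V → ℕ) (f a b : ℕ) (hf : 0 < f)
    (v0 : V) (h0 : Z v0) (hZF : ∀ v, Z v → F v = f) (hZL : ∀ v, Z v → L v = a)
    (hZK : ∀ v, Z v → K v = b) (hn : ∀ v, ¬ Z v → L v = K v)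
    (h : ∑ v, F v * L v = ∑ v, F v * K v) : a = b := by
  classical
  rw [← Finset.sum_filter_add_sum_filter_not Finset.univ Z,
    ← Finset.sum_filter_add_sum_filter_not Finset.univ Z (fun v => F v * K v)] at h
  have h1 : ∑ v ∈ Finset.univ.filter (fun v => ¬ Z v), F v * L v =
      ∑ v ∈ Finset.univ.filter (fun v => ¬ Z v), F v * K v := by
    apply Finset.sum_congr rfl
    intro v hv
    rw [hn v (Finset.mem_filter.1 hv).2]
  have h2 : ∑ v ∈ Finset.univ.filter (fun v => Z v), F v * L v =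
      (Finset.univ.filter (fun v => Z v)).card * (f * a) := by
    rw [← smul_eq_mul, ← Finset.sum_const]
    apply Finset.sum_congr rfl
    intro v hv
    rw [hZF v (Finset.mem_filter.1 hv).2, hZL v (Finset.mem_filter.1 hv).2]
  have h3 : ∑ v ∈ Finset.univ.filter (fun v => Z v), F v * K v =
      (Finset.univ.filter (fun v => Z v)).card * (f * b) := by
    rw [← smul_eq_mul, ← Finset.sum_const]
    apply Finset.sum_congr rfl
    intro v hv
    rw [hZF v (Finset.mem_filter.1 hv).2, hZK v (Finset.mem_filter.1 hv).2]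
  rw [h1, h2, h3] at h
  have h4 := Nat.add_right_cancel h
  have h5 : 0 < (Finset.univ.filter (fun v => Z v)).card :=
    Finset.card_pos.2 ⟨v0, Finset.mem_filter.2 ⟨Finset.mem_univ _, h0⟩⟩
  exact Nat.eq_of_mul_eq_mul_left hf (Nat.eq_of_mul_eq_mul_left h5 h4)

theorem leq (kxe : KxeStmt) (ncg : NcgStmt) (ksm : KsmStmt) (lke : LkeStmt) (lnt : LntStmt)
    (spx : SpxStmt) (sta : TW.StaStmt) (lsb : T3.LsbStmt) (inx : K9.InxStmt) : LeqStmt := by
  intro ℓ hℓ M _ hM
  have hF : GoodF ℓ (FF M) := H50.fld ℓ Fact.out M hM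
  suffices hmain : ∀ n : ℕ, ∀ (G : Type) [Group G] [Finite G], Nat.card G = n →
      ∀ (e : G → FF M) (V : Subgroup G) (γ : G → FF M), Ld ℓ e V γ → ∀ U W : Subgroup G,
      Sp V γ U W → ln e = ke V γ by
    intro G _ _ e V γ h1 U W h2
    exact hmain _ G rfl e V γ h1 U W h2
  intro n
  induction n using Nat.strong_induction_on with
  | _ n ih =>
  intro G _ _ hn e V γ hL U W hS
  obtain ⟨b, hZ, hSt⟩ := sta ℓ M hM G e V γ hL
  have hlc : ∀ v ∈ V, Lc e V γ v (b v) := fun v hv =>
    ⟨(hZ.lb v hv).1.bx, (hZ.lb v hv).1.und, (hZ.lb v hv).2⟩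
  obtain ⟨l1, l2⟩ := lke ℓ (FF M) G e V γ hL
  have hk : (IrrE M e).ncard = Nat.card (ConjClasses (V ⋊[(Ei V γ).subtype] Ei V γ)) :=
    kxe ℓ M hM G e V γ hL U W hS
  have hCT := T3.H66.cent_le_Tg hL
  have hix : ¬ ℓ ∣ ix V γ := inx ℓ M hM G e hL.blk V hL.tp hL.ab γ hL.gam.supp hL.gam.blk hL.und
  have hiz : iz V V γ = ix V γ := by
    unfold iz ix
    rw [inf_eq_left.2 hCT]
  have hab : ∀ a c : V, a * c = c * a := fun a c => Subtype.ext (hL.ab _ a.2 _ c.2)
  have hco : (Nat.card V).Coprime (Nat.card (Ei V γ)) := by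
    obtain ⟨k, hk'⟩ := IsPGroup.iff_card.1 hL.tp.pg
    rw [hk', ← l1, hiz]
    exact Nat.Coprime.pow_left _ ((Nat.Prime.coprime_iff_not_dvd hℓ.out).2 hix)
  have hN := ncg V (Ei V γ) (Ei V γ).subtype hab hco
  have hK := ksm ℓ M hM G e V γ b hZ hSt
  rw [l1, hk, hN] at hK
  have := Fintype.ofFinite V
  rw [finsum_eq_sum_of_fintype, finsum_eq_sum_of_fintype] at hK
  have hK2 : ∑ v : V, Nat.card (Fxs (Ei V γ).subtype v) *
        ln (fun t : Cu (v : G) => b v t) =
      ∑ v : V, Nat.card (Fxs (Ei V γ).subtype v) *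
        Nat.card (ConjClasses (Fxs (Ei V γ).subtype v)) := by
    rw [hK]
    apply Finset.sum_congr rfl
    intro v _
    rw [(l2 v).1]
  have hZc : ∀ v : V, (v : G) ∈ Subgroup.center G → Fxs (Ei V γ).subtype v = ⊤ := by
    intro v hv
    apply fxs_top
    rintro ⟨_, t, -, rfl⟩
    apply Subtype.ext
    change (t : G) * v * (t : G)⁻¹ = v
    rw [Subgroup.mem_center_iff.1 hv, mul_inv_cancel_right]
  refine cmp (fun v : V => (v : G) ∈ Subgroup.center G) _ _ _ (Nat.card (Ei V γ)) (ln e)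
    (ke V γ) Nat.card_pos 1 (Subgroup.one_mem _) ?_ ?_ ?_ ?_ hK2
  · intro v hv
    change Nat.card (Fxs (Ei V γ).subtype v) = _
    rw [hZc v hv]
    exact Subgroup.card_top
  · intro v hv
    exact lnt ℓ (FF M) hF G e V γ hL v v.2 hv (b v) (hlc v v.2)
  · intro v hv
    change Nat.card (ConjClasses (Fxs (Ei V γ).subtype v)) = _
    rw [hZc v hv]
    exact card_cc Subgroup.topEquiv
  · intro v hv
    have hCX : Subgroup.centralizer (V : Set G) ≤ Cu (v : G) := fun g hg =>
      Subgroup.mem_centralizer_singleton_iff.2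
        (Subgroup.mem_centralizer_iff.1 hg v v.2).symm
    have hlt : Nat.card (Cu (v : G)) < n := by
      rw [← hn]
      refine lt_of_le_of_ne (Subgroup.card_le_card_group _) (fun h => hv ?_)
      rw [Subgroup.mem_center_iff]
      intro g
      have h1 : g ∈ Cu (v : G) := by
        rw [(Subgroup.card_eq_iff_eq_top _).1 h]
        exact Subgroup.mem_top g
      exact Subgroup.mem_centralizer_singleton_iff.1 h1
    obtain ⟨m1, -⟩ := lsb ℓ M hM G e V γ hL v v.2 (b v) (hlc v v.2)
    have h2 := ih _ hlt (Cu (v : G)) rfl _ _ _ m1 _ _ (spx ℓ (FF M) G e V γ hL U W hS _ hCX)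
    change ln (fun t : Cu (v : G) => b v t) = _
    rw [h2]
    exact (l2 v).2

end Pool.Agent.PFD.H11
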